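import Mathlib

namespace Pool.Agent.Results.MP_9704e3_al.Q1

/-- The set of horizontal class transpositions. -/
def H : Set (Equiv.Perm ℤ) := {t | ∃ k i j : ℤ, 2 ≤ k ∧ 0 ≤ i ∧ i < j ∧ j ≤ k - 1 ∧
  ∀ n, t n = if n % k = i then n + (j - i) else if n % k = j then n - (j - i) else n}

def f (k i j n : ℤ) : ℤ := if n % k = i then n + (j - i) else if n % k = j then n - (j - i) else n

lemma md {k n r : ℤ} (s : ℤ) (h : n % k = r) (h0 : 0 ≤ s) (h1 : s < k) : (n + (s - r)) % k = s := by
  have := Int.mul_ediv_add_emod n k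
  rw [show n + (s - r) = s + k * (n / k) by omega, Int.add_mul_emod_self_left,
    Int.emod_eq_of_lt h0 h1]

lemma f_inv {k i j : ℤ} (h0 : 0 ≤ i) (h1 : i < j) (h2 : j < k) : Function.Involutive (f k i j) := by
  intro n
  by_cases a : n % k = i
  · have := md j a (by omega) h2
    simp only [f, a, if_true, this, h1.ne', if_false]; ring
  · by_cases b : n % k = j
    · have := md i b h0 (by omega)
      rw [show n + (i - j) = n - (j - i) by ring] at this
      simp only [f, b, h1.ne', if_true, if_false, this]; ring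
    · simp only [f, a, b, if_false]

lemma blk {k M x r s : ℤ} (hM : k ∣ M) (hx : 0 ≤ x ∧ x < M) (h : x % k = r)
    (h0 : 0 ≤ s) (h1 : s < k) : 0 ≤ x + (s - r) ∧ x + (s - r) < M := by
  obtain ⟨c, rfl⟩ := hM
  have hk : 0 < k := by omega
  have e := Int.mul_ediv_add_emod x k
  have a1 : 0 ≤ x / k := Int.ediv_nonneg hx.1 hk.le
  have a2 : x / k < c := Int.ediv_lt_of_lt_mul hk (by linarith)
  rw [show x + (s - r) = s + k * (x / k) by omega]
  constructor <;> nlinarith

lemma cnt (P : Equiv.Perm ℤ) {k M : ℤ} (r : ℤ) (hk : 0 < k) (hM : k ∣ M) (hM0 : 0 < M)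
    (hP : ∀ x, 0 ≤ x ∧ x < M → 0 ≤ P x ∧ P x < M) :
    k * (((Finset.Ico 0 M).filter fun x => P x % k = r).card : ℤ) ≤ M := by
  obtain ⟨c, rfl⟩ := hM
  have : ((Finset.Ico 0 (k * c)).filter fun x => P x % k = r).card ≤ (Finset.Ico 0 c).card := by
    refine Finset.card_le_card_of_injOn (fun x => P x / k) (fun x hx => ?_) fun x hx y hy h => ?_
    · simp only [Finset.coe_filter, Finset.mem_Ico, Set.mem_ofPred_eq, Finset.coe_Ico,
        Set.mem_Ico] at hx ⊢
      exact ⟨Int.ediv_nonneg (hP x hx.1).1 hk.le, Int.ediv_lt_of_lt_mul hk (by linarith [hP x hx.1])⟩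
    · simp only [Finset.coe_filter, Set.mem_ofPred_eq] at hx hy h
      apply P.injective
      rw [← Int.mul_ediv_add_emod (P x) k, ← Int.mul_ediv_add_emod (P y) k, h, hx.2, hy.2]
  have hc : 0 < c := by nlinarith
  rw [Int.card_Ico] at this
  have : (((Finset.Ico 0 (k * c)).filter fun x => P x % k = r).card : ℤ) ≤ c := by omega
  nlinarith

lemma main (K : ℤ) (hK : 0 < K) (l : List (Equiv.Perm ℤ)) (hl : ∀ t ∈ l, t ∈ H) :
    ∃ M0 : ℤ, 0 < M0 ∧ ∀ M, 0 < M → M0 ∣ M → (∀ x, 0 ≤ x ∧ x < M → 0 ≤ l.prod x ∧ l.prod x < M) ∧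
      K * (((Finset.Ico 0 M).filter fun x => l.length * K < |l.prod x - x|).card : ℤ) ≤
        2 * l.length * M := by
  induction l with
  | nil => exact ⟨1, one_pos, fun M _ _ => ⟨by simp, by simp⟩⟩
  | cons t l ih =>
    obtain ⟨M0, h0, ih⟩ := ih fun s hs => hl s (List.mem_cons_of_mem _ hs)
    obtain ⟨k, i, j, hk, hi, hij, hj, ht⟩ := hl t List.mem_cons_self
    refine ⟨M0 * k, by positivity, fun M hM hd => ?_⟩
    obtain ⟨h1, h2⟩ := ih M hM (dvd_of_mul_right_dvd hd)
    have hkM : k ∣ M := dvd_of_mul_left_dvd hd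
    simp only [List.prod_cons, Equiv.Perm.mul_apply, List.length_cons]
    refine ⟨fun x hx => ?_, ?_⟩
    · rw [ht]
      split_ifs with a b
      · exact blk hkM (h1 x hx) a (by omega) (by omega)
      · have := blk hkM (h1 x hx) b hi (by omega)
        omega
      · exact h1 x hx
    · push_cast
      rcases le_or_gt k K with hkK | hkK
      · refine le_trans (mul_le_mul_of_nonneg_left (Int.ofNat_le.2 (Finset.card_le_card
          (Finset.monotone_filter_right _ fun x _ hx => ?_))) hK.le) (h2.trans (by nlinarith))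
        rw [ht, add_mul, one_mul, lt_abs] at hx
        rw [lt_abs]
        split_ifs at hx <;> omega
      · have c1 := cnt l.prod i (by omega) hkM hM h1
        have c2 := cnt l.prod j (by omega) hkM hM h1
        have : ((Finset.Ico 0 M).filter fun x => (l.length + 1) * K < |t (l.prod x) - x|).card ≤
            ((Finset.Ico 0 M).filter fun x => l.length * K < |l.prod x - x|).card +
            ((Finset.Ico 0 M).filter fun x => l.prod x % k = i).card +
            ((Finset.Ico 0 M).filter fun x => l.prod x % k = j).card := by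
          refine le_trans (Finset.card_le_card fun x hx => ?_) ((Finset.card_union_le _ _).trans
            (Nat.add_le_add_right (Finset.card_union_le _ _) _))
          simp only [Finset.mem_filter, Finset.mem_union] at hx ⊢
          rw [ht] at hx
          split_ifs at hx with a b
          · exact Or.inl (Or.inr ⟨hx.1, a⟩)
          · exact Or.inr ⟨hx.1, b⟩
          · exact Or.inl (Or.inl ⟨hx.1, by linarith [hx.2]⟩)
        have := Int.ofNat_le.2 this
        push_cast at this
        nlinarith [Int.natCast_nonneg ((Finset.Ico 0 M).filter fun x => l.prod x % k = i).card,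
          Int.natCast_nonneg ((Finset.Ico 0 M).filter fun x => l.prod x % k = j).card]

lemma half (L : ℤ) (m : ℕ) (hm : (m : ℤ) ≤ L) : ∃ g ∈ Subgroup.closure H, ∀ x,
    g x = if x % (2 * L) < m then x + L else if L ≤ x % (2 * L) ∧ x % (2 * L) < L + m then x - L
      else x := by
  induction m with
  | zero =>
    refine ⟨1, one_mem _, fun x => ?_⟩
    rcases eq_or_lt_of_le (show 0 ≤ L by simpa using hm) with rfl | h
    · simp
    · have := Int.emod_nonneg x (show 2 * L ≠ 0 by omega)
      simp; split_ifs <;> omega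
  | succ m ih =>
    push_cast at hm
    obtain ⟨g, hg, h⟩ := ih (by omega)
    have hi := f_inv (k := 2 * L) (i := m) (j := L + m) (by omega) (by omega) (by omega)
    refine ⟨g * hi.toPerm, mul_mem hg (Subgroup.subset_closure
      ⟨2 * L, m, L + m, by omega, by omega, by omega, by omega, fun n => rfl⟩), fun x => ?_⟩
    change g (f _ _ _ x) = _
    rw [h]
    push_cast
    by_cases a : x % (2 * L) = m
    · have := md (L + m) a (by omega) (by omega)
      simp only [f, a, if_true, this]
      split_ifs <;> omega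
    · by_cases b : x % (2 * L) = L + m
      · have := md m b (by omega) (by omega)
        rw [show x + (m - (L + m)) = x - (L + m - m) by ring] at this
        simp only [f, b, show ¬ (L + m = m) by omega, if_true, if_false, this]
        split_ifs <;> omega
      · simp only [f, a, b, if_false]
        split_ifs <;> omega

theorem result (n : ℕ) : ∃ g ∈ Subgroup.closure H,
    ∀ l : List (Equiv.Perm ℤ), (∀ t ∈ l, t ∈ H) → l.length ≤ n → l.prod ≠ g := by
  obtain ⟨g, hg, h⟩ := half (n * (2 * n + 1) + 1 : ℕ) _ le_rfl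
  refine ⟨g, hg, fun l hl hn he => ?_⟩
  obtain ⟨M, h0, h1⟩ := main (2 * n + 1) (by positivity) l hl
  have h2 := (h1 M h0 dvd_rfl).2
  have hn' : (l.length : ℤ) ≤ n := by exact_mod_cast hn
  rw [Finset.filter_true_of_mem, Int.card_Ico, sub_zero, Int.toNat_of_nonneg h0.le] at h2
  · nlinarith
  · intro x _
    have e : (l.length : ℤ) * (2 * n + 1) < (n * (2 * n + 1) + 1 : ℕ) := by push_cast; nlinarith
    rw [he, h, lt_abs]
    generalize ((n * (2 * n + 1) + 1 : ℕ) : ℤ) = L at *
    have hL : 0 < L := lt_of_le_of_lt (by positivity) e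
    have := Int.emod_lt_of_pos x (show 0 < 2 * L by omega)
    split_ifs <;> omega

end Pool.Agent.Results.MP_9704e3_al.Q1
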